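import Mathlib
import Pool.Agent.Erdos456.Smooth2
import Pool.Agent.Erdos456.Iface

/-!
# A small common multiple of the numbers `p - 1`, `p ≤ z` prime

`log L ≤ C z loglog z / log z`.
-/

set_option autoImplicit false

open Finset

namespace Pool.Agent.V8H18.PF

open Pool.Agent.Erdos456

theorem GG_sum_real : ∃ C : ℝ, 0 < C ∧ ∀ N : ℕ, 1 ≤ N →
    ∑ m ∈ Finset.Icc 1 N, GG m ^ 2 * (m : ℝ)⁻¹ ≤ C * (1 + Real.log N) := by
  obtain ⟨C, hC, h⟩ := sum_GG_sq_div_le
  refine ⟨C, hC, fun N hN => ?_⟩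
  have h1 := h N
  rw [tsum_eq_sum (s := Finset.Icc 1 N)] at h1
  · have h2 : ∑ b ∈ Finset.Icc 1 N,
        (if 1 ≤ b ∧ b ≤ N then ENNReal.ofReal (GG b ^ 2 * (b : ℝ)⁻¹) else 0) =
        ENNReal.ofReal (∑ m ∈ Finset.Icc 1 N, GG m ^ 2 * (m : ℝ)⁻¹) := by
      rw [ENNReal.ofReal_sum_of_nonneg (fun i _ => by positivity)]
      apply Finset.sum_congr rfl
      intro b hb
      rw [mem_Icc] at hb
      rw [if_pos hb]
    rw [h2] at h1
    have h3 : 0 ≤ Real.log N := Real.log_natCast_nonneg N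
    exact (ENNReal.ofReal_le_ofReal_iff (by positivity)).1 h1
  · intro b hb
    rw [mem_Icc] at hb
    rw [if_neg hb]

/-- pairs `r`, `s r + 1` of primes -/
theorem pair_count : ∃ C : ℝ, 0 < C ∧ ∀ s N : ℕ, 1 ≤ s → 2 ≤ N →
    (((Icc 1 N).filter (fun r => r.Prime ∧ (s * r + 1).Prime)).card : ℝ) ≤
      C * GG s ^ 2 * N / (Real.log N) ^ 2 := by
  obtain ⟨C, hC, h⟩ := sieve_two'
  refine ⟨C, hC, fun s N hs hN => ?_⟩
  have h1 := h 1 0 s 1 N one_pos (by omega) (by norm_num) (by simp) (by simp) hN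
  have h2 : (1 * s * (((1 * 1 : ℕ) : ℤ) - ((s * 0 : ℕ) : ℤ)).natAbs) = s := by simp
  rw [h2] at h1
  have h3 : (Icc 1 N).filter (fun r => r.Prime ∧ (s * r + 1).Prime) =
      (Icc 1 N).filter (fun n => (1 * n + 0).Prime ∧ (s * n + 1).Prime) := by
    apply Finset.filter_congr
    intro x _
    simp
  rw [h3]
  exact h1

/-- the large primes dividing some `p - 1`, `p ≤ z` -/
def RR (z : ℕ) : Finset ℕ :=
  (Icc 1 z).filter (fun r => r.Prime ∧ Nat.sqrt z < r ∧ ∃ s ∈ Icc 1 z, (s * r + 1).Prime ∧ s * r + 1 ≤ z)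

def AA (z : ℕ) : ℕ := ∏ r ∈ (Icc 1 (Nat.sqrt z)).filter Nat.Prime, r ^ Nat.log r z

def BB (z : ℕ) : ℕ := ∏ r ∈ RR z, r

theorem dvd_AB {z p : ℕ} (hp : p.Prime) (hpz : p ≤ z) : p - 1 ∣ AA z * BB z := by
  rw [Nat.dvd_iff_prime_pow_dvd_dvd]
  intro r k hr hk
  have hp1 : 1 ≤ p - 1 := by have := hp.two_le; omega
  have hrk : r ^ k ≤ z := (Nat.le_of_dvd hp1 hk).trans (by omega)
  rcases Nat.eq_zero_or_pos k with hk0 | hk0
  · subst hk0; simp
  rcases Nat.lt_or_ge (Nat.sqrt z) r with hrs | hrs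
  · -- `r > √z`
    have hk1 : k = 1 := by
      by_contra hne
      have h2 : 2 ≤ k := by omega
      have h3 : r ^ 2 ≤ r ^ k := Nat.pow_le_pow_right hr.pos h2
      have h4 : z < r ^ 2 := by
        rw [pow_two]
        exact Nat.sqrt_lt.1 hrs
      omega
    subst hk1
    rw [pow_one] at hk hrk ⊢
    apply Dvd.dvd.mul_left
    apply Finset.dvd_prod_of_mem (fun r => r)
    unfold RR
    rw [mem_filter, mem_Icc]
    refine ⟨⟨hr.pos, hrk⟩, hr, hrs, (p - 1) / r, ?_, ?_⟩
    · rw [mem_Icc]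
      refine ⟨Nat.div_pos (Nat.le_of_dvd hp1 hk) hr.pos, ?_⟩
      exact (Nat.div_le_self _ _).trans (by omega)
    · rw [Nat.div_mul_cancel hk]
      have : p - 1 + 1 = p := by omega
      rw [this]
      exact ⟨hp, hpz⟩
  · apply Dvd.dvd.mul_right
    have h1 : k ≤ Nat.log r z := Nat.le_log_of_pow_le hr.one_lt hrk
    refine (pow_dvd_pow r h1).trans ?_
    unfold AA
    apply Finset.dvd_prod_of_mem (fun r => r ^ Nat.log r z)
    rw [mem_filter, mem_Icc]
    exact ⟨⟨hr.pos, hrs⟩, hr⟩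

theorem AA_pos (z : ℕ) : 0 < AA z := by
  unfold AA
  apply Finset.prod_pos
  intro r hr
  rw [mem_filter] at hr
  exact pow_pos hr.2.pos _

theorem BB_pos (z : ℕ) : 0 < BB z := by
  unfold BB
  apply Finset.prod_pos
  intro r hr
  unfold RR at hr
  rw [mem_filter] at hr
  exact hr.2.1.pos

theorem log_AA {z : ℕ} (hz : 1 ≤ z) : Real.log (AA z) ≤ Nat.sqrt z * Real.log z := by
  unfold AA
  push_cast
  rw [Real.log_prod (fun r hr => by
    rw [mem_filter] at hr
    have := hr.2.pos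
    positivity)]
  calc ∑ r ∈ (Icc 1 (Nat.sqrt z)).filter Nat.Prime, Real.log ((r : ℝ) ^ Nat.log r z)
      ≤ ∑ r ∈ (Icc 1 (Nat.sqrt z)).filter Nat.Prime, Real.log z := by
        apply Finset.sum_le_sum
        intro r hr
        rw [mem_filter] at hr
        have := hr.2.pos
        apply Real.log_le_log (by positivity)
        have h1 := Nat.pow_log_le_self r (by omega : z ≠ 0)
        exact_mod_cast h1
    _ = ((Icc 1 (Nat.sqrt z)).filter Nat.Prime).card * Real.log z := by
        rw [Finset.sum_const, nsmul_eq_mul]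
    _ ≤ Nat.sqrt z * Real.log z := by
        apply mul_le_mul_of_nonneg_right _ (Real.log_natCast_nonneg z)
        have h1 : ((Icc 1 (Nat.sqrt z)).filter Nat.Prime).card ≤ (Icc 1 (Nat.sqrt z)).card :=
          Finset.card_filter_le _ _
        rw [Nat.card_Icc] at h1
        exact_mod_cast (by omega : ((Icc 1 (Nat.sqrt z)).filter Nat.Prime).card ≤ Nat.sqrt z)

/-- large elements of `RR z` -/
theorem RR_split (z S : ℕ) (hS : 1 ≤ S) :
    ((RR z).filter (fun r => z / S < r)).card ≤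
      ∑ s ∈ Icc 1 S, ((Icc 1 (z / s)).filter (fun r => r.Prime ∧ (s * r + 1).Prime)).card := by
  refine (Finset.card_le_card (t := (Icc 1 S).biUnion (fun s =>
    (Icc 1 (z / s)).filter (fun r => r.Prime ∧ (s * r + 1).Prime))) ?_).trans
    Finset.card_biUnion_le
  intro r hr
  unfold RR at hr
  rw [mem_filter, mem_filter, mem_Icc] at hr
  obtain ⟨⟨⟨h1, h2⟩, h3, h4, s, hs, h5, h6⟩, h7⟩ := hr
  rw [mem_Icc] at hs
  rw [mem_biUnion]
  have h8 : s ≤ S := by
    by_contra hcon
    have h9 : S < s := by omega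
    have h10 : z < r * S := by
      rw [Nat.div_lt_iff_lt_mul (by omega)] at h7
      exact h7
    have h11 : r * S ≤ r * s := Nat.mul_le_mul_left r h9.le
    have h12 : r * s = s * r := mul_comm _ _
    omega
  refine ⟨s, mem_Icc.2 ⟨hs.1, h8⟩, ?_⟩
  rw [mem_filter, mem_Icc]
  refine ⟨⟨h1, ?_⟩, h3, h5⟩
  rw [Nat.le_div_iff_mul_le (by omega)]
  have h12 : r * s = s * r := mul_comm _ _
  omega

theorem log_BB (z S : ℕ) (hS : 1 ≤ S) :
    Real.log (BB z) ≤ Real.log 4 * (z / S) +
      (∑ s ∈ Icc 1 S, ((Icc 1 (z / s)).filter (fun r => r.Prime ∧ (s * r + 1).Prime)).card : ℕ) *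
        Real.log z := by
  unfold BB
  push_cast
  rw [Real.log_prod (fun r hr => by
    unfold RR at hr
    rw [mem_filter] at hr
    have := hr.2.1.pos
    positivity)]
  rw [← Finset.sum_filter_add_sum_filter_not (RR z) (fun r => z / S < r), add_comm]
  apply add_le_add
  · have h1 := Chebyshev.theta_le_log4_mul_x (x := ((z / S : ℕ) : ℝ)) (by positivity)
    rw [Chebyshev.theta_eq_sum_Icc, Nat.floor_natCast] at h1
    have h2 : ((z / S : ℕ) : ℝ) ≤ (z : ℝ) / S := Nat.cast_div_le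
    have h3 : 0 < Real.log 4 := Real.log_pos (by norm_num)
    calc ∑ r ∈ (RR z).filter (fun r => ¬ (z / S < r)), Real.log r
        ≤ ∑ p ∈ (Icc 0 (z / S)).filter Nat.Prime, Real.log p := by
          apply Finset.sum_le_sum_of_subset_of_nonneg
          · intro r hr
            unfold RR at hr
            rw [mem_filter, mem_filter, mem_Icc] at hr
            rw [mem_filter, mem_Icc]
            exact ⟨⟨by omega, by omega⟩, hr.1.2.1⟩
          · intro p _ _
            exact Real.log_natCast_nonneg p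
      _ ≤ Real.log 4 * ((z / S : ℕ) : ℝ) := h1
      _ ≤ _ := by
          apply mul_le_mul_of_nonneg_left h2 h3.le
  · calc ∑ r ∈ (RR z).filter (fun r => z / S < r), Real.log r
        ≤ ∑ r ∈ (RR z).filter (fun r => z / S < r), Real.log z := by
          apply Finset.sum_le_sum
          intro r hr
          unfold RR at hr
          rw [mem_filter, mem_filter, mem_Icc] at hr
          have h0 := hr.1.1.1
          apply Real.log_le_log (by exact_mod_cast h0)
          exact_mod_cast hr.1.1.2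
      _ = ((RR z).filter (fun r => z / S < r)).card * Real.log z := by
          rw [Finset.sum_const, nsmul_eq_mul]
      _ ≤ _ := by
          apply mul_le_mul_of_nonneg_right _ (Real.log_natCast_nonneg z)
          exact_mod_cast RR_split z S hS

theorem sqrt_facts {z : ℕ} (hz : 16 ≤ z) :
    4 ≤ Nat.sqrt z ∧ Real.log z ≤ 4 * Real.log (Nat.sqrt z) := by
  have h4 : 4 ≤ Nat.sqrt z := by
    rw [Nat.le_sqrt]
    omega
  refine ⟨h4, ?_⟩
  have h1 : z < (Nat.sqrt z + 1) * (Nat.sqrt z + 1) := Nat.lt_succ_sqrt z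
  have h2 : Nat.sqrt z + 1 ≤ Nat.sqrt z ^ 2 := by nlinarith
  have h3 : z ≤ Nat.sqrt z ^ 4 := by
    calc z ≤ (Nat.sqrt z + 1) * (Nat.sqrt z + 1) := h1.le
      _ ≤ Nat.sqrt z ^ 2 * Nat.sqrt z ^ 2 := Nat.mul_le_mul h2 h2
      _ = Nat.sqrt z ^ 4 := by ring
  have h5 : Real.log z ≤ Real.log ((Nat.sqrt z : ℝ) ^ 4) := by
    apply Real.log_le_log (by positivity)
    exact_mod_cast h3
  rw [Real.log_pow] at h5
  exact_mod_cast h5

theorem loglog_ge {z : ℕ} (hz : 16 ≤ z) : 1 ≤ Real.log (Real.log z) ∧ 1 ≤ Real.log z := by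
  have h1 : Real.log 16 ≤ Real.log z := by
    apply Real.log_le_log (by norm_num)
    exact_mod_cast hz
  have h2 : Real.log 16 = 4 * Real.log 2 := by
    rw [show (16 : ℝ) = 2 ^ 4 by norm_num, Real.log_pow]; norm_num
  have h3 := Real.log_two_gt_d9
  have h4 : Real.exp 1 ≤ Real.log z := by
    have := Real.exp_one_lt_d9
    linarith
  constructor
  · rw [Real.le_log_iff_exp_le (by linarith [Real.exp_pos 1])]
    exact h4
  · have := Real.add_one_le_exp (1 : ℝ)
    linarith

theorem exists_modulus : ∃ C : ℝ, 1 ≤ C ∧ ∀ z : ℕ, 16 ≤ z → ∃ L : ℕ, 0 < L ∧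
    (∀ p : ℕ, p.Prime → p ≤ z → p - 1 ∣ L) ∧
    Real.log L ≤ C * (z * Real.log (Real.log z) / Real.log z) := by
  obtain ⟨C1, hC1, h1⟩ := pair_count
  obtain ⟨C2, hC2, h2⟩ := GG_sum_real
  set K : ℝ := 16 * C1 * C2 with hK
  refine ⟨16 + Real.log 4 * 2 + 3 * K, ?_, ?_⟩
  · have := Real.log_pos (by norm_num : (1 : ℝ) < 4)
    have : 0 < K := by positivity
    linarith
  intro z hz
  obtain ⟨hs4, hsl⟩ := sqrt_facts hz
  obtain ⟨hll, hl⟩ := loglog_ge hz
  set l := Real.log z with hl_def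
  set S := ⌈l⌉₊ with hS_def
  have hlpos : 0 < l := by linarith
  have hSl : l ≤ S := Nat.le_ceil _
  have hS1 : 1 ≤ S := by
    have : (1 : ℝ) ≤ S := hl.trans hSl
    exact_mod_cast this
  have hS2 : (S : ℝ) ≤ 2 * l := by
    have := Nat.ceil_lt_add_one (by linarith : 0 ≤ l)
    linarith
  have hz0 : (0 : ℝ) < z := by
    have : 0 < z := by omega
    exact_mod_cast this
  -- `log z ≤ 4 z ^ (1/4)`-type bound: `l ^ 2 ≤ 16 √z`
  have hl4 : l ≤ 4 * (z : ℝ) ^ (1 / 4 : ℝ) := by
    have h := Real.log_le_rpow_div (x := (z : ℝ)) hz0.le (by norm_num : (0 : ℝ) < 1 / 4)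
    rw [← hl_def] at h
    linarith
  have hl2 : l ^ 2 ≤ 16 * Real.sqrt z := by
    have h3 : ((z : ℝ) ^ (1 / 4 : ℝ)) ^ 2 = Real.sqrt z := by
      rw [Real.sqrt_eq_rpow, ← Real.rpow_natCast, ← Real.rpow_mul hz0.le]
      norm_num
    have h4 : 0 ≤ (z : ℝ) ^ (1 / 4 : ℝ) := by positivity
    calc l ^ 2 ≤ (4 * (z : ℝ) ^ (1 / 4 : ℝ)) ^ 2 := pow_le_pow_left₀ hlpos.le hl4 2
      _ = 16 * ((z : ℝ) ^ (1 / 4 : ℝ)) ^ 2 := by ring
      _ = _ := by rw [h3]
  have hsq : (Nat.sqrt z : ℝ) ≤ Real.sqrt z := Real.nat_sqrt_le_real_sqrt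
  have hzz : Real.sqrt z * Real.sqrt z = z := Real.mul_self_sqrt hz0.le
  have hsq0 : 0 ≤ Real.sqrt z := Real.sqrt_nonneg _
  -- `S ≤ √z`
  have hSq : S ≤ Nat.sqrt z := by
    -- `log z ≤ 4 log √z ≤ ... `
    rw [Nat.ceil_le]
    -- `l ≤ 4 log s`, with `s = Nat.sqrt z ≥ 4`; need `l ≤ s`
    have hs0 : (4 : ℝ) ≤ Nat.sqrt z := by exact_mod_cast hs4
    have h5 : (z : ℝ) < ((Nat.sqrt z : ℝ) + 1) ^ 2 := by
      have := Nat.lt_succ_sqrt z
      rw [pow_two]
      exact_mod_cast this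
    have h6 : l ≤ 2 * Real.log ((Nat.sqrt z : ℝ) + 1) := by
      have h7 : l ≤ Real.log (((Nat.sqrt z : ℝ) + 1) ^ 2) := by
        apply Real.log_le_log hz0 h5.le
      rw [Real.log_pow] at h7
      exact_mod_cast h7
    -- `log (s+1) = log 5 + log ((s+1)/5) ≤ log 5 + (s+1)/5 - 1`
    have h8 : Real.log ((Nat.sqrt z : ℝ) + 1) ≤ Real.log 5 + (((Nat.sqrt z : ℝ) + 1) / 5 - 1) := by
      have h9 := Real.log_le_sub_one_of_pos (x := ((Nat.sqrt z : ℝ) + 1) / 5) (by positivity)
      rw [Real.log_div (by positivity) (by norm_num)] at h9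
      linarith
    have h10 : Real.log 5 ≤ 2 := by
      rw [Real.log_le_iff_le_exp (by norm_num)]
      have h11 := Real.exp_one_gt_d9
      have h12 : Real.exp 2 = Real.exp 1 * Real.exp 1 := by
        rw [← Real.exp_add]; norm_num
      rw [h12]
      nlinarith
    by_cases h13 : Nat.sqrt z = 4
    · -- z < 25
      have h14 : z < 25 := by
        have := Nat.lt_succ_sqrt z
        rw [h13] at this
        simpa using this
      have h15 : l ≤ Real.log 25 := by
        apply Real.log_le_log hz0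
        exact_mod_cast h14.le
      have h16 : Real.log 25 ≤ 4 := by
        rw [Real.log_le_iff_le_exp (by norm_num)]
        have h11 := Real.exp_one_gt_d9
        have h12 : Real.exp 4 = (Real.exp 1 * Real.exp 1) * (Real.exp 1 * Real.exp 1) := by
          rw [← Real.exp_add, ← Real.exp_add]; norm_num
        rw [h12]
        have : 7 ≤ Real.exp 1 * Real.exp 1 := by nlinarith
        nlinarith
      rw [h13]
      push_cast
      linarith
    · have h14 : (5 : ℝ) ≤ Nat.sqrt z := by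
        have : 5 ≤ Nat.sqrt z := by omega
        exact_mod_cast this
      -- crude: 2 (2 + (s+1)/5 - 1) = 2 + 2(s+1)/5 ≤ s iff 3 s/5 ≥ 2.4 iff s ≥ 4
      linarith
  refine ⟨AA z * BB z, Nat.mul_pos (AA_pos z) (BB_pos z), fun p hp hpz => dvd_AB hp hpz, ?_⟩
  have hA := log_AA (z := z) (by omega)
  have hB := log_BB z S hS1
  have hAB : Real.log ((AA z * BB z : ℕ) : ℝ) = Real.log (AA z) + Real.log (BB z) := by
    push_cast
    have := AA_pos z
    have := BB_pos z
    rw [Real.log_mul (by positivity) (by positivity)]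
  rw [hAB]
  -- the sum of the pair counts
  have hcount : (((∑ s ∈ Icc 1 S, ((Icc 1 (z / s)).filter
      (fun r => r.Prime ∧ (s * r + 1).Prime)).card : ℕ)) : ℝ) ≤
      K * z * (1 + Real.log S) / l ^ 2 := by
    push_cast
    calc ∑ s ∈ Icc 1 S, (((Icc 1 (z / s)).filter
        (fun r => r.Prime ∧ (s * r + 1).Prime)).card : ℝ)
        ≤ ∑ s ∈ Icc 1 S, (16 * C1 * z / l ^ 2) * (GG s ^ 2 * (s : ℝ)⁻¹) := by
          apply Finset.sum_le_sum
          intro s hs
          rw [mem_Icc] at hs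
          have hs0 : (0 : ℝ) < s := by
            have := hs.1
            exact_mod_cast (by omega : 0 < s)
          have hN : Nat.sqrt z ≤ z / s := by
            rw [Nat.le_div_iff_mul_le (by omega)]
            calc Nat.sqrt z * s ≤ Nat.sqrt z * Nat.sqrt z :=
                  Nat.mul_le_mul_left _ (hs.2.trans hSq)
              _ ≤ z := Nat.sqrt_le z
          have h5 := h1 s (z / s) hs.1 (by omega)
          have h6 : l / 4 ≤ Real.log ((z / s : ℕ) : ℝ) := by
            have h7 : Real.log (Nat.sqrt z) ≤ Real.log ((z / s : ℕ) : ℝ) := by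
              apply Real.log_le_log (by exact_mod_cast (by omega : 0 < Nat.sqrt z))
              exact_mod_cast hN
            linarith
          have h8 : (l / 4) ^ 2 ≤ Real.log ((z / s : ℕ) : ℝ) ^ 2 :=
            pow_le_pow_left₀ (by positivity) h6 2
          have h9 : ((z / s : ℕ) : ℝ) ≤ (z : ℝ) / s := Nat.cast_div_le
          have h10 : 0 ≤ GG s := GG_nonneg s
          calc (((Icc 1 (z / s)).filter (fun r => r.Prime ∧ (s * r + 1).Prime)).card : ℝ)
              ≤ C1 * GG s ^ 2 * ((z / s : ℕ) : ℝ) / (Real.log ((z / s : ℕ) : ℝ)) ^ 2 := h5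
            _ ≤ C1 * GG s ^ 2 * ((z : ℝ) / s) / (l / 4) ^ 2 := by
                apply div_le_div₀ (by positivity) _ (by positivity) h8
                apply mul_le_mul_of_nonneg_left h9 (by positivity)
            _ = (16 * C1 * z / l ^ 2) * (GG s ^ 2 * (s : ℝ)⁻¹) := by
                field_simp
                ring
      _ = (16 * C1 * z / l ^ 2) * ∑ s ∈ Icc 1 S, (GG s ^ 2 * (s : ℝ)⁻¹) := by
          rw [Finset.mul_sum]
      _ ≤ (16 * C1 * z / l ^ 2) * (C2 * (1 + Real.log S)) := by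
          apply mul_le_mul_of_nonneg_left (h2 S hS1) (by positivity)
      _ = _ := by
          rw [hK]; ring
  -- log S
  have hlogS : Real.log S ≤ 1 + Real.log l := by
    have h5 : Real.log S ≤ Real.log (2 * l) := by
      apply Real.log_le_log (by exact_mod_cast hS1) hS2
    rw [Real.log_mul (by norm_num) (by positivity)] at h5
    have := Real.log_two_lt_d9
    linarith
  have hR : (0 : ℝ) < z / l := by positivity
  -- piece one
  have hp1 : (Nat.sqrt z : ℝ) * l ≤ 16 * (z * Real.log l / l) := by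
    calc (Nat.sqrt z : ℝ) * l ≤ Real.sqrt z * l := mul_le_mul_of_nonneg_right hsq hlpos.le
      _ = (Real.sqrt z * l ^ 2) / l := by field_simp
      _ ≤ (Real.sqrt z * (16 * Real.sqrt z)) / l := by gcongr
      _ = 16 * (z * 1 / l) := by
          rw [show Real.sqrt z * (16 * Real.sqrt z) = 16 * (Real.sqrt z * Real.sqrt z) by ring, hzz]
          ring
      _ ≤ 16 * (z * Real.log l / l) := by gcongr
  have hp2 : Real.log 4 * ((z : ℝ) / S) ≤ (Real.log 4 * 2) * (z * Real.log l / l) := by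
    have h3 : 0 < Real.log 4 := Real.log_pos (by norm_num)
    have h5 : (z : ℝ) / S ≤ z / l := by
      apply div_le_div_of_nonneg_left hz0.le hlpos hSl
    calc Real.log 4 * ((z : ℝ) / S) ≤ Real.log 4 * (z / l) := by gcongr
      _ ≤ (Real.log 4 * 2) * (z * 1 / l) := by
          have : 0 < Real.log 4 * (z / l) := by positivity
          rw [show (Real.log 4 * 2) * (z * 1 / l) = 2 * (Real.log 4 * (z / l)) by ring]
          linarith
      _ ≤ _ := by gcongr
  have hp3 : K * z * (1 + Real.log S) / l ^ 2 * l ≤ 3 * K * (z * Real.log l / l) := by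
    have hK0 : 0 < K := by positivity
    have h5 : 1 + Real.log S ≤ 3 * Real.log l := by linarith
    calc K * z * (1 + Real.log S) / l ^ 2 * l = K * (z / l) * (1 + Real.log S) := by
          field_simp
      _ ≤ K * (z / l) * (3 * Real.log l) := by gcongr
      _ = _ := by ring
  have hfin : Real.log (BB z) ≤ Real.log 4 * ((z : ℝ) / S) + K * z * (1 + Real.log S) / l ^ 2 * l := by
    refine hB.trans ?_
    gcongr
  calc Real.log (AA z) + Real.log (BB z)
      ≤ (Nat.sqrt z : ℝ) * l + (Real.log 4 * ((z : ℝ) / S) +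
          K * z * (1 + Real.log S) / l ^ 2 * l) := add_le_add hA hfin
    _ ≤ 16 * (z * Real.log l / l) + ((Real.log 4 * 2) * (z * Real.log l / l) +
          3 * K * (z * Real.log l / l)) := add_le_add hp1 (add_le_add hp2 hp3)
    _ = _ := by ring

end Pool.Agent.V8H18.PF
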