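import Mathlib
import Pool.Agent.V8H18.PF.Lcm

/-!
# Prime-free intervals around the powers

If `p - 1 ∣ L` for all primes `p ≤ z` and `n ≡ j (mod L)`, `n > j ≥ 1`, then `b ^ n ≡ b ^ j (mod p)`
for all integers `b` and all primes `p ≤ z`.
-/

set_option autoImplicit false

open Finset Filter

namespace Pool.Agent.V8H18.PF

theorem dvd_sub_pow {L z : ℕ} (hL : ∀ p : ℕ, p.Prime → p ≤ z → p - 1 ∣ L) {j n : ℕ} (hj : 1 ≤ j)
    (hjn : j < n) (hmod : n ≡ j [MOD L]) (b : ℤ) {p : ℕ} (hp : p.Prime) (hpz : p ≤ z) :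
    (p : ℤ) ∣ b ^ n - b ^ j := by
  have h1 : L ∣ n - j := (Nat.modEq_iff_dvd' hjn.le).1 hmod.symm
  obtain ⟨t, ht⟩ := (hL p hp hpz).trans h1
  have h2 : b ^ n - b ^ j = b ^ j * (b ^ (n - j) - 1) := by
    have h3 : b ^ n = b ^ j * b ^ (n - j) := by
      rw [← pow_add]
      congr 1
      omega
    rw [h3]; ring
  rw [h2]
  by_cases hb : (p : ℤ) ∣ b
  · exact Dvd.dvd.mul_right (dvd_pow hb (by omega)) _
  · apply Dvd.dvd.mul_left
    have := Fact.mk hp
    rw [← ZMod.intCast_zmod_eq_zero_iff_dvd]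
    push_cast
    have h4 : (b : ZMod p) ≠ 0 := by
      rw [Ne, ZMod.intCast_zmod_eq_zero_iff_dvd]
      exact hb
    rw [ht, pow_mul, ZMod.pow_card_sub_one_eq_one h4, one_pow, sub_self]

/-- the exponential sum `Σ a_i b_i ^ n` -/
def expSum {r : ℕ} (a b : Fin r → ℤ) (n : ℕ) : ℤ := ∑ i, a i * b i ^ n

theorem exists_prime_dvd {L z : ℕ} (hL : ∀ p : ℕ, p.Prime → p ≤ z → p - 1 ∣ L) {j n : ℕ}
    (hj : 1 ≤ j) (hjn : j < n) (hmod : n ≡ j [MOD L]) {r : ℕ} (a b : Fin r → ℤ) (k : ℤ)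
    (h2 : 2 ≤ |expSum a b j + k|) (hz : |expSum a b j + k| ≤ z) :
    ∃ p : ℕ, p.Prime ∧ p ≤ z ∧ (p : ℤ) ∣ expSum a b n + k := by
  set N := (expSum a b j + k).natAbs with hN
  have hN1 : (N : ℤ) = |expSum a b j + k| := Int.natCast_natAbs _
  have hN2 : 2 ≤ N := by
    have : (2 : ℤ) ≤ N := by rw [hN1]; exact h2
    exact_mod_cast this
  have hN3 : N ≤ z := by
    have : (N : ℤ) ≤ z := by rw [hN1]; exact hz
    exact_mod_cast this
  obtain ⟨p, hp, hpN⟩ := Nat.exists_prime_and_dvd (by omega : N ≠ 1)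
  have hpz : p ≤ z := (Nat.le_of_dvd (by omega) hpN).trans hN3
  refine ⟨p, hp, hpz, ?_⟩
  have h3 : (p : ℤ) ∣ expSum a b j + k := by
    rw [← Int.natCast_dvd_natCast] at hpN
    rw [hN1] at hpN
    exact (dvd_abs _ _).1 hpN
  have h4 : (p : ℤ) ∣ expSum a b n - expSum a b j := by
    unfold expSum
    rw [← Finset.sum_sub_distrib]
    apply Finset.dvd_sum
    intro i _
    rw [← mul_sub]
    exact Dvd.dvd.mul_left (dvd_sub_pow hL hj hjn hmod (b i) hp hpz) _
  have h5 : expSum a b n + k = (expSum a b n - expSum a b j) + (expSum a b j + k) := by ring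
  rw [h5]
  exact dvd_add h4 h3

/-- a single power -/
theorem exists_prime_dvd_pow {L z : ℕ} (hL : ∀ p : ℕ, p.Prime → p ≤ z → p - 1 ∣ L) {j n : ℕ}
    (hj : 1 ≤ j) (hjn : j < n) (hmod : n ≡ j [MOD L]) (b k : ℤ)
    (h2 : 2 ≤ b ^ j + k) (hz : b ^ j + k ≤ z) :
    ∃ p : ℕ, p.Prime ∧ p ≤ z ∧ (p : ℤ) ∣ b ^ n + k := by
  have h1 := exists_prime_dvd hL hj hjn hmod (r := 1) (fun _ => 1) (fun _ => b) k
  have h3 : ∀ m : ℕ, expSum (r := 1) (fun _ => 1) (fun _ => b) m = b ^ m := by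
    intro m
    simp [expSum]
  rw [h3, h3, abs_of_nonneg (by omega)] at h1
  exact h1 h2 hz

/-- a number with a prime factor `≤ z < m` is composite -/
theorem not_prime_of_dvd {z m p : ℕ} (hp : p.Prime) (hpz : p ≤ z) (hd : p ∣ m) (hm : z < m) :
    ¬ m.Prime := by
  intro h
  have := (Nat.prime_dvd_prime_iff_eq hp h).1 hd
  omega

/-- one-sided intervals, all bases simultaneously -/
theorem one_sided {L z : ℕ} (hL : ∀ p : ℕ, p.Prime → p ≤ z → p - 1 ∣ L) {n : ℕ}
    (hn : 1 < n) (hmod : n ≡ 1 [MOD L]) {b k : ℕ} (hb : 2 ≤ b) (hz : b + k ≤ z) :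
    ¬ (b ^ n + k).Prime := by
  have hbn : b < b ^ n := by
    calc b = b ^ 1 := (pow_one b).symm
      _ < b ^ n := Nat.pow_lt_pow_right (by omega) hn
  obtain ⟨p, hp, hpz, hpd⟩ := exists_prime_dvd_pow hL (j := 1) le_rfl hn hmod (b : ℤ) (k : ℤ)
    (by rw [pow_one]; exact_mod_cast (by omega : 2 ≤ b + k))
    (by rw [pow_one]; exact_mod_cast hz)
  -- use a prime factor of `b + k` directly
  obtain ⟨q, hq, hqd⟩ := Nat.exists_prime_and_dvd (by omega : b + k ≠ 1)
  have hqz : q ≤ b + k := Nat.le_of_dvd (by omega) hqd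
  have h1 := dvd_sub_pow hL (j := 1) le_rfl hn hmod (b : ℤ) hq (hqz.trans hz)
  have h2 : (q : ℤ) ∣ ((b ^ n + k : ℕ) : ℤ) := by
    have h3 : ((b ^ n + k : ℕ) : ℤ) = ((b : ℤ) ^ n - (b : ℤ) ^ 1) + ((b + k : ℕ) : ℤ) := by
      push_cast; ring
    rw [h3]
    exact dvd_add h1 (Int.natCast_dvd_natCast.2 hqd)
  exact not_prime_of_dvd hq hqz (Int.natCast_dvd_natCast.1 h2) (by omega)

/-- two-sided intervals -/
theorem two_sided {L y z : ℕ} (hL : ∀ p : ℕ, p.Prime → p ≤ y → p - 1 ∣ L) {b j n : ℕ}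
    (hj : 1 ≤ j) (hjn : j < n) (hmod : n ≡ j [MOD L])
    (h1 : z + 2 ≤ b ^ j) (h2 : b ^ j + z ≤ y) (h3 : y + z < b ^ n) (m : ℕ)
    (hm : |(m : ℤ) - (b : ℤ) ^ n| ≤ z) : ¬ m.Prime := by
  have hm' := abs_le.1 hm
  set k : ℤ := (m : ℤ) - (b : ℤ) ^ n with hk
  have h1' : ((z : ℤ) + 2) ≤ (b : ℤ) ^ j := by exact_mod_cast h1
  have h2' : (b : ℤ) ^ j + z ≤ y := by exact_mod_cast h2
  have h3' : (y : ℤ) + z < (b : ℤ) ^ n := by exact_mod_cast h3
  obtain ⟨p, hp, hpy, hpd⟩ := exists_prime_dvd_pow hL hj hjn hmod (b : ℤ) k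
    (by linarith [hm'.1]) (by linarith [hm'.2])
  have h4 : (b : ℤ) ^ n + k = m := by rw [hk]; ring
  rw [h4] at hpd
  have h5 : (y : ℤ) < m := by rw [← h4]; linarith [hm'.1]
  exact not_prime_of_dvd hp hpy (Int.natCast_dvd_natCast.1 hpd) (by exact_mod_cast h5)

/-- an integer of a given residue class in an interval -/
theorem exists_in_class (a Q M : ℕ) (hQ : 0 < Q) : ∃ n : ℕ, M < n ∧ n ≤ M + Q ∧ n ≡ a [MOD Q] := by
  refine ⟨M + 1 + (a + (Q - 1) * (M + 1)) % Q, by omega, ?_, ?_⟩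
  · have := Nat.mod_lt (a + (Q - 1) * (M + 1)) hQ
    omega
  · have h1 : M + 1 + (a + (Q - 1) * (M + 1)) % Q ≡ M + 1 + (a + (Q - 1) * (M + 1)) [MOD Q] :=
      Nat.ModEq.add_left _ (Nat.mod_modEq _ _)
    refine h1.trans ?_
    have h2 : M + 1 + (a + (Q - 1) * (M + 1)) = a + Q * (M + 1) := by
      obtain ⟨q, rfl⟩ : ∃ q, Q = q + 1 := ⟨Q - 1, by omega⟩
      simp only [Nat.add_sub_cancel]
      ring
    rw [h2]
    unfold Nat.ModEq
    simp

/-- the length of the intervals -/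
noncomputable def len (n : ℕ) : ℝ :=
  Real.log n * Real.log (Real.log n) / Real.log (Real.log (Real.log n))

/-- the logarithm of the modulus -/
noncomputable def X (z : ℕ) : ℝ := z * Real.log (Real.log z) / Real.log z

theorem exp_one_le_log {z : ℕ} (hz : 16 ≤ z) : Real.exp 1 ≤ Real.log z := by
  have h := (loglog_ge hz).1
  rwa [Real.le_log_iff_exp_le (by linarith [(loglog_ge hz).2])] at h

theorem X_pos {z : ℕ} (hz : 16 ≤ z) : 0 < X z := by
  have h := loglog_ge hz
  have : 0 < z := by omega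
  unfold X
  have h1 : 0 < Real.log (Real.log z) := by linarith
  have h2 : 0 < Real.log z := by linarith
  positivity

theorem X_scale {z y : ℕ} {K : ℝ} (hz : 16 ≤ z) (hzy : z ≤ y) (hy : (y : ℝ) ≤ K * z) :
    X y ≤ K * X z := by
  have h1 := exp_one_le_log hz
  have h2 := exp_one_le_log (hz.trans hzy)
  have h3 : Real.log z ≤ Real.log y := by
    apply Real.log_le_log (by exact_mod_cast (by omega : 0 < z))
    exact_mod_cast hzy
  have h4 := Real.log_div_self_antitoneOn (Set.mem_ofPred.2 h1) (Set.mem_ofPred.2 h2) h3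
  simp only at h4
  have h5 := (loglog_ge hz)
  have h6 : 0 ≤ Real.log (Real.log z) / Real.log z := by
    apply div_nonneg <;> linarith [h5.1, h5.2]
  unfold X
  rw [mul_div_assoc, mul_div_assoc, ← mul_assoc]
  calc (y : ℝ) * (Real.log (Real.log y) / Real.log y)
      ≤ (y : ℝ) * (Real.log (Real.log z) / Real.log z) :=
        mul_le_mul_of_nonneg_left h4 (by positivity)
    _ ≤ _ := mul_le_mul_of_nonneg_right hy h6

theorem X_large (K : ℝ) : ∀ᶠ z : ℕ in atTop, K * Real.log z ≤ X z := by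
  have h1 := (Real.isLittleO_pow_log_id_atTop (n := 2)).bound
    (by positivity : (0 : ℝ) < (1 + |K|)⁻¹)
  have h2 := (tendsto_natCast_atTop_atTop (R := ℝ)).eventually h1
  filter_upwards [h2, eventually_ge_atTop 16] with z hz hz16
  obtain ⟨hll, hl⟩ := loglog_ge hz16
  have hz0 : (0 : ℝ) < z := by exact_mod_cast (by omega : 0 < z)
  simp only [id, Real.norm_eq_abs] at hz
  rw [abs_of_nonneg (by positivity), abs_of_pos hz0] at hz
  rw [inv_mul_eq_div, le_div_iff₀ (by positivity)] at hz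
  have hlp : 0 < Real.log z := by linarith
  unfold X
  rw [le_div_iff₀ hlp]
  have hK : K ≤ 1 + |K| := by linarith [le_abs_self K]
  calc K * Real.log z * Real.log z = Real.log z ^ 2 * K := by ring
    _ ≤ Real.log z ^ 2 * (1 + |K|) := by gcongr
    _ ≤ z := hz
    _ = z * 1 := by ring
    _ ≤ z * Real.log (Real.log z) := by gcongr

theorem X_eq (z : ℕ) : X z = z * Real.log (Real.log z) / Real.log z := rfl

theorem loglog_tendsto : Tendsto (fun z : ℕ => Real.log (Real.log z)) atTop atTop :=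
  Real.tendsto_log_atTop.comp (Real.tendsto_log_atTop.comp tendsto_natCast_atTop_atTop)

theorem len_growth {A : ℝ} (hA : 1 ≤ A) : ∀ᶠ z : ℕ in atTop, ∀ n : ℕ,
    Real.exp 1 ≤ Real.log (Real.log n) → Real.log n ≤ A * X z → len n ≤ 2 * A * z := by
  have h1 := (Real.isLittleO_log_id_atTop).bound (by positivity : (0 : ℝ) < A⁻¹)
  have h2 := (Real.tendsto_log_atTop.comp (tendsto_natCast_atTop_atTop (R := ℝ))).eventually h1
  filter_upwards [h2, eventually_ge_atTop 256,
    loglog_tendsto.eventually (eventually_ge_atTop (2 * Real.log 2))] with z h3 hz256 h5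
  intro n hn hlog
  have hz : 16 ≤ z := by omega
  obtain ⟨hll, hl⟩ := loglog_ge hz
  have hz0 : (0 : ℝ) < z := by exact_mod_cast (by omega : 0 < z)
  have hlp : 0 < Real.log z := by linarith
  simp only [id, Real.norm_eq_abs, Function.comp] at h3
  rw [abs_of_nonneg (by linarith), abs_of_pos hlp, inv_mul_eq_div, le_div_iff₀ (by linarith)] at h3
  have hX := X_pos hz
  have he := Real.exp_pos 1
  have he1 : 1 < Real.exp 1 := by
    have := Real.add_one_lt_exp (by norm_num : (1 : ℝ) ≠ 0)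
    linarith
  -- `A X ≤ z`
  have hXz : A * X z ≤ z := by
    unfold X
    rw [← mul_div_assoc, div_le_iff₀ hlp]
    calc A * (z * Real.log (Real.log z)) = z * (Real.log (Real.log z) * A) := by ring
      _ ≤ z * Real.log z := by gcongr
  have hAX : 0 < A * X z := by positivity
  -- `log (A X) ≥ (1/2) log z`
  have hXs : Real.sqrt z ≤ A * X z := by
    have h6 : Real.log z ≤ Real.sqrt z := by
      have h := Real.log_le_rpow_div (x := (z : ℝ)) hz0.le (by norm_num : (0 : ℝ) < 1 / 4)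
      set t := (z : ℝ) ^ (1 / 4 : ℝ) with ht
      have ht2 : Real.sqrt z = t ^ 2 := by
        rw [ht, Real.sqrt_eq_rpow, ← Real.rpow_natCast, ← Real.rpow_mul hz0.le]
        norm_num
      have ht4 : 4 ≤ t := by
        have h256 : (256 : ℝ) ≤ z := by exact_mod_cast hz256
        have h7 : ((256 : ℝ)) ^ (1 / 4 : ℝ) ≤ t := Real.rpow_le_rpow (by norm_num) h256 (by norm_num)
        have h8 : ((256 : ℝ)) ^ (1 / 4 : ℝ) = 4 := by
          rw [show (256 : ℝ) = 4 ^ (4 : ℝ) by norm_num, ← Real.rpow_mul (by norm_num)]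
          norm_num
        linarith
      rw [ht2]
      nlinarith
    have h7 : Real.sqrt z ≤ X z := by
      unfold X
      rw [le_div_iff₀ hlp]
      calc Real.sqrt z * Real.log z ≤ Real.sqrt z * Real.sqrt z := by gcongr
        _ = z := Real.mul_self_sqrt hz0.le
        _ = z * 1 := by ring
        _ ≤ z * Real.log (Real.log z) := by gcongr
    calc Real.sqrt z ≤ X z := h7
      _ = 1 * X z := by ring
      _ ≤ A * X z := by gcongr
  set u := Real.log (Real.log n) with hu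
  set U := Real.log (A * X z) with hU
  have hlogn : 0 < Real.log n := by
    rcases (Real.log_natCast_nonneg n).lt_or_eq with h | h
    · exact h
    · rw [hu, ← h, Real.log_zero] at hn
      linarith
  have huU : u ≤ U := Real.log_le_log hlogn hlog
  have h7 := Real.log_div_self_antitoneOn (Set.mem_ofPred.2 hn) (Set.mem_ofPred.2 (hn.trans huU)) huU
  simp only at h7
  have hupos : 0 < u := by linarith
  have hUpos : 0 < U := by linarith
  have hlu : 1 ≤ Real.log u := by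
    rw [Real.le_log_iff_exp_le hupos]; exact hn
  have hlU : 1 ≤ Real.log U := by
    rw [Real.le_log_iff_exp_le hUpos]; exact hn.trans huU
  have h8 : u / Real.log u ≤ U / Real.log U := by
    rw [div_le_div_iff₀ (by linarith) (by linarith)]
    rw [div_le_div_iff₀ hUpos hupos] at h7
    linarith
  have h9 : U ≤ Real.log z := Real.log_le_log hAX hXz
  have h10 : Real.log z / 2 ≤ U := by
    have h11 := Real.log_le_log (Real.sqrt_pos.2 hz0) hXs
    rwa [Real.log_sqrt hz0.le] at h11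
  have h12 : Real.log (Real.log z) / 2 ≤ Real.log U := by
    have h13 := Real.log_le_log (by positivity) h10
    rw [Real.log_div (by positivity) (by norm_num)] at h13
    linarith
  have h14 : U / Real.log U ≤ Real.log z / (Real.log (Real.log z) / 2) := by
    apply div_le_div₀ hlp.le h9 (by linarith) h12
  unfold len
  rw [← hu]
  calc Real.log n * u / Real.log u = Real.log n * (u / Real.log u) := by ring
    _ ≤ (A * X z) * (Real.log z / (Real.log (Real.log z) / 2)) := by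
        apply mul_le_mul hlog (h8.trans h14) (by positivity) hAX.le
    _ = 2 * A * z := by
        unfold X
        have : Real.log (Real.log z) ≠ 0 := by linarith
        field_simp

theorem four_mul_le {z : ℕ} (hz : 16 ≤ z) : 4 * z ≤ 2 ^ z := by
  induction z, hz using Nat.le_induction with
  | base => norm_num
  | succ n hn ih => rw [pow_succ]; omega

/-- two-sided prime-free intervals around `b ^ n`, `n` in a residue class modulo `q` -/
theorem two_sided_exists : ∃ C : ℝ, 1 ≤ C ∧ ∀ b q a z M : ℕ, 2 ≤ b → 1 ≤ q → 16 ≤ z → z + q ≤ M →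
    ∃ n : ℕ, M < n ∧ (n : ℝ) ≤ M + q * Real.exp (C * ((b : ℝ) ^ q * X z)) ∧ n ≡ a [MOD q] ∧
      ∀ m : ℕ, |(m : ℤ) - (b : ℤ) ^ n| ≤ z → ¬ m.Prime := by
  obtain ⟨C, hC, h⟩ := exists_modulus
  refine ⟨C * 2, by linarith, ?_⟩
  intro b q a z M hb hq hz hM
  have hbpos : 0 < b := by omega
  have hex : ∃ j, z + 2 ≤ b ^ j := ⟨z, by
    have h1 := four_mul_le hz
    have h2 : 2 ^ z ≤ b ^ z := Nat.pow_le_pow_left hb z
    omega⟩
  classical
  set j0 := Nat.find hex with hj0
  have hj0s : z + 2 ≤ b ^ j0 := Nat.find_spec hex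
  have hj0z : j0 ≤ z := by
    apply Nat.find_min' hex
    have h1 := four_mul_le hz
    have h2 : 2 ^ z ≤ b ^ z := Nat.pow_le_pow_left hb z
    omega
  have hj0p : 1 ≤ j0 := by
    rcases Nat.eq_zero_or_pos j0 with h0 | h0
    · rw [h0, pow_zero] at hj0s; omega
    · exact h0
  have hj0m : b ^ (j0 - 1) < z + 2 := by
    have := Nat.find_min hex (m := j0 - 1) (by omega)
    omega
  obtain ⟨j, hj1, hj2, hj3⟩ := exists_in_class a q (j0 - 1) (by omega)
  have hjz : z + 2 ≤ b ^ j := hj0s.trans (Nat.pow_le_pow_right hbpos (by omega))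
  have hjle : b ^ j ≤ b ^ q * (z + 2) := by
    calc b ^ j ≤ b ^ (q + (j0 - 1)) := Nat.pow_le_pow_right hbpos (by omega)
      _ = b ^ q * b ^ (j0 - 1) := pow_add _ _ _
      _ ≤ b ^ q * (z + 2) := Nat.mul_le_mul_left _ hj0m.le
  have hbq : 2 ≤ b ^ q := by
    calc 2 ≤ b := hb
      _ = b ^ 1 := (pow_one b).symm
      _ ≤ b ^ q := Nat.pow_le_pow_right hbpos hq
  set y := b ^ q * (z + 2) + z with hy
  have hzy : z ≤ y := by omega
  have hy2 : y ≤ 2 * b ^ q * z := by
    rw [hy]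
    nlinarith
  obtain ⟨L, hL0, hL1, hL2⟩ := h y (hz.trans hzy)
  obtain ⟨n, hn1, hn2, hn3⟩ := exists_in_class j (q * L) M (Nat.mul_pos (by omega) hL0)
  refine ⟨n, hn1, ?_, ?_, ?_⟩
  · have h1 : (L : ℝ) ≤ Real.exp (C * 2 * ((b : ℝ) ^ q * X z)) := by
      rw [← Real.log_le_iff_le_exp (by exact_mod_cast hL0)]
      refine hL2.trans ?_
      have h2 : X y ≤ (2 * (b : ℝ) ^ q) * X z := X_scale hz hzy (by exact_mod_cast hy2)
      calc C * (y * Real.log (Real.log y) / Real.log y) = C * X y := rfl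
        _ ≤ C * ((2 * (b : ℝ) ^ q) * X z) := by gcongr
        _ = _ := by ring
    calc (n : ℝ) ≤ ((M + q * L : ℕ) : ℝ) := by exact_mod_cast hn2
      _ = M + q * L := by push_cast; ring
      _ ≤ _ := by gcongr
  · exact (hn3.of_mul_right L).trans hj3
  · have hjn : j < n := by omega
    intro m hm
    refine two_sided (y := y) hL1 (by omega) hjn (hn3.of_mul_left q) hjz (by omega) ?_ m hm
    have h1 := four_mul_le hz
    have h2 : b ^ (z + q) ≤ b ^ n := Nat.pow_le_pow_right hbpos (by omega)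
    have h3 : 4 * z * b ^ q ≤ b ^ (z + q) := by
      rw [pow_add]
      apply Nat.mul_le_mul_right
      exact h1.trans (Nat.pow_le_pow_left hb z)
    nlinarith

/-- one-sided prime-free intervals for all bases simultaneously -/
theorem one_sided_exists : ∃ C : ℝ, 1 ≤ C ∧ ∀ z M : ℕ, 16 ≤ z → 1 ≤ M →
    ∃ n : ℕ, M < n ∧ (n : ℝ) ≤ M + Real.exp (C * X z) ∧
      ∀ b k : ℕ, 2 ≤ b → b + k ≤ z → ¬ (b ^ n + k).Prime := by
  obtain ⟨C, hC, h⟩ := exists_modulus
  refine ⟨C, hC, ?_⟩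
  intro z M hz hM
  obtain ⟨L, hL0, hL1, hL2⟩ := h z hz
  obtain ⟨n, hn1, hn2, hn3⟩ := exists_in_class 1 L M hL0
  refine ⟨n, hn1, ?_, ?_⟩
  · have h1 : (L : ℝ) ≤ Real.exp (C * X z) := by
      rw [← Real.log_le_iff_le_exp (by exact_mod_cast hL0)]
      exact hL2
    calc (n : ℝ) ≤ ((M + L : ℕ) : ℝ) := by exact_mod_cast hn2
      _ = M + L := by push_cast; ring
      _ ≤ _ := by gcongr
  · intro b k hb hk
    exact one_sided hL1 (by omega) hn3 hb hk

/-- passing from `n ≤ z + q + q exp(A X)` to `log n ≤ 2 A X` -/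
theorem log_le_of {A : ℝ} (hA : 1 ≤ A) (q : ℕ) : ∀ᶠ z : ℕ in atTop, ∀ n : ℕ, 1 ≤ n →
    (n : ℝ) ≤ ((z + q : ℕ) : ℝ) + q * Real.exp (A * X z) → Real.log n ≤ (2 * A) * X z := by
  filter_upwards [X_large 2, eventually_ge_atTop (2 * q + 16)] with z h1 hz
  intro n hn1 hn
  have hX := X_pos (by omega : 16 ≤ z)
  have hz0 : (0 : ℝ) < z := by exact_mod_cast (by omega : 0 < z)
  have hn0 : (0 : ℝ) < n := by exact_mod_cast hn1
  rw [Real.log_le_iff_le_exp hn0]
  have h2 : (z : ℝ) ^ 2 ≤ Real.exp (A * X z) := by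
    rw [← Real.log_le_iff_le_exp (by positivity), Real.log_pow]
    calc ((2 : ℕ) : ℝ) * Real.log z = 2 * Real.log z := by norm_num
      _ ≤ X z := h1
      _ = 1 * X z := by ring
      _ ≤ A * X z := by gcongr
  have h3 : Real.exp (2 * A * X z) = Real.exp (A * X z) * Real.exp (A * X z) := by
    rw [← Real.exp_add]; congr 1; ring
  rw [h3]
  refine hn.trans ?_
  push_cast
  have hzq : (2 : ℝ) * q + 16 ≤ z := by exact_mod_cast hz
  have hq0 : (0 : ℝ) ≤ q := by positivity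
  set E := Real.exp (A * X z) with hE
  have h4 : (z : ℝ) * z ≤ E := by rw [← pow_two]; exact h2
  have h5 : 1 ≤ E := Real.one_le_exp (by positivity)
  have h6 : (z : ℝ) + q + q * E ≤ E * (q + 2) := by nlinarith
  have h7 : (q : ℝ) + 2 ≤ E := by nlinarith
  calc (z : ℝ) + q + q * E ≤ E * (q + 2) := h6
    _ ≤ E * E := by gcongr

end Pool.Agent.V8H18.PF
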